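import Pool.Agent.H16.SUn3

/-!
# MP_ca7eb7_al, Q2: every element of `SU(n)`, `n ≥ 3`, is a product of five involutions of `SU(n)`

Diagonalise, factor the diagonal matrix as `X Y` by partial products, so that the spectra of `X`
and `Y` are paired by complex conjugation and `Y` has eigenvalue one. Then `Y` is a product of two
involutions of determinant one, and `X` of two or three.
-/

namespace Pool.Agent.Results.MP_ca7eb7_al.FiveInvolutions

/-- Q2: for every `n ≥ 3`, every element of `SU(n)` is a product of five involutions of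
`SU(n)`. -/
theorem result : ∀ n : ℕ, 3 ≤ n → ∀ A ∈ Matrix.specialUnitaryGroup (Fin n) ℂ,
    ∃ g : Fin 5 → Matrix (Fin n) (Fin n) ℂ,
      (∀ i, g i ∈ Matrix.specialUnitaryGroup (Fin n) ℂ ∧ g i * g i = 1) ∧
        A = g 0 * g 1 * g 2 * g 3 * g 4 := by
  intro n hn A hA
  obtain ⟨I1, I2, I3, I4, I5, h1, h2, h3, h4, h5, h⟩ := Pool.Agent.H16.SUn.five hn hA
  refine ⟨![I1, I2, I3, I4, I5], ?_, ?_⟩
  · intro i
    fin_cases i
    · exact h1
    · exact h2
    · exact h3
    · exact h4
    · exact h5
  · exact h

end Pool.Agent.Results.MP_ca7eb7_al.FiveInvolutions
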