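import Pool.Agent.H16.SUn4

/-!
# MP_ca7eb7_al, Q1 for `n` not congruent to `2` modulo `4`: four involutions suffice
-/

namespace Pool.Agent.Results.MP_ca7eb7_al.FourInvolutions

/-- For every `n ≥ 3` with `n` not congruent to `2` modulo `4`, every element of `SU(n)` is a
product of four involutions of `SU(n)`. -/
theorem result : ∀ n : ℕ, 3 ≤ n → n % 4 ≠ 2 → ∀ A ∈ Matrix.specialUnitaryGroup (Fin n) ℂ,
    ∃ g : Fin 4 → Matrix (Fin n) (Fin n) ℂ,
      (∀ i, g i ∈ Matrix.specialUnitaryGroup (Fin n) ℂ ∧ g i * g i = 1) ∧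
        A = g 0 * g 1 * g 2 * g 3 := by
  intro n hn h4 A hA
  obtain ⟨I1, I2, I3, I4, h1, h2, h3, h4, h⟩ := Pool.Agent.H16.SUn.four hn h4 hA
  refine ⟨![I1, I2, I3, I4], ?_, ?_⟩
  · intro i
    fin_cases i
    · exact h1
    · exact h2
    · exact h3
    · exact h4
  · exact h

end Pool.Agent.Results.MP_ca7eb7_al.FourInvolutions
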